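import Mathlib

namespace Pool.Agent.Results.MP_2d70c5_nt.Q1

open Finset

def H (d n : ℕ) : ℕ :=
  (univ.filter fun g : Equiv.Perm (Fin n) => ∀ c ∈ g.cycleType, c = d).card

theorem val (d n : ℕ) (h2 : 2 ≤ d) (h : d ≤ n) (h' : n < 2 * d) :
    H d n = 1 + (d - 1).factorial * n.choose d := by
  have e : (univ.filter fun g : Equiv.Perm (Fin n) => ∀ c ∈ g.cycleType, c = d)
      = {1} ∪ (univ.filter fun g : Equiv.Perm (Fin n) => g.cycleType = {d}) := by
    ext g
    simp only [mem_filter, mem_univ, true_and, mem_union, mem_singleton]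
    constructor
    · intro hg
      have h1 : g.cycleType = Multiset.replicate g.cycleType.card d :=
        Multiset.eq_replicate.2 ⟨rfl, hg⟩
      have h3 := g.sum_cycleType_le
      rw [h1, Multiset.sum_replicate, smul_eq_mul, Fintype.card_fin] at h3
      rcases hk : g.cycleType.card with _ | _ | k
      · left; exact Equiv.Perm.cycleType_eq_zero.1 (Multiset.card_eq_zero.1 hk)
      · right; rw [h1, hk]; rfl
      · rw [hk] at h3; nlinarith
    · rintro (rfl | hg)
      · simp
      · simp [hg]
  rw [H, e, card_union_of_disjoint, card_singleton,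
    Equiv.Perm.card_of_cycleType_singleton h2 (by simpa using h), Fintype.card_fin]
  simp

theorem result : ∃ a b n m : ℕ, 2 ≤ a ∧ a < b ∧ a ≤ n ∧ b ≤ m ∧ H a n = H b m := by
  refine ⟨42, 45, 49, 47, by norm_num, by norm_num, by norm_num, by norm_num, ?_⟩
  rw [val 42 49 (by norm_num) (by norm_num) (by norm_num),
    val 45 47 (by norm_num) (by norm_num) (by norm_num)]
  decide +kernel

end Pool.Agent.Results.MP_2d70c5_nt.Q1
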